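import Pool.Agent.H95.Tball

set_option autoImplicit false

open Metric InnerProductSpace

theorem Pool.Agent.Results.MP_1096cc_an.Plane.result (ρ r : ℝ) (h0 : 0 < ρ) (h1 : ρ < r) (h2 : r < 1) :
    ∃ K : ℝ, ∀ u : ℂ → ℂ, HarmonicOnNhd u (ball 0 1) → ⨆ z : ball (0 : ℂ) 1, ‖u z‖ = 1 →
      ⨆ z : ball (0 : ℂ) r, ‖u z‖ ≤ K * (⨆ z : ball (0 : ℂ) ρ, ‖u z‖) ^ (Real.log r / Real.log ρ) :=
  Pool.Agent.H95.Tball.main h0 h1 h2
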